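import Mathlib

set_option autoImplicit false

namespace Pool.Agent.TH626.TKL

open Polynomial

/-- the field-theoretic part -/
theorem algL (L : Type) [Field L] [Algebra ℚ L] [FiniteDimensional ℚ L] (f w : ℤ[X]) (θ β : L)
    (hθ : aeval θ (f.map (Int.castRingHom ℚ)) = 0)
    (hβ : β ^ 2 = aeval θ (w.map (Int.castRingHom ℚ)))
    (hgen : ∀ y : L, ∃ r0 r1 : ℚ[X], y = aeval θ r0 + aeval θ r1 * β) :
    ∃ g : ℤ[X], Irreducible g ∧ 0 < g.natDegree ∧ ∃ P1 P2 Q1 Q2 Q3 r0 r1 : ℚ[X],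
      (f.map (Int.castRingHom ℚ)).comp P1 = g.map (Int.castRingHom ℚ) * Q1 ∧
      P2 ^ 2 - (w.map (Int.castRingHom ℚ)).comp P1 = g.map (Int.castRingHom ℚ) * Q2 ∧
      r0.comp P1 + r1.comp P1 * P2 - X = g.map (Int.castRingHom ℚ) * Q3 := by
  obtain ⟨γ₀, hγ₀⟩ := Field.exists_primitive_element ℚ L
  have halg : IsAlgebraic ℤ γ₀ :=
    (IsFractionRing.isAlgebraic_iff ℤ ℚ L).2 (Algebra.IsAlgebraic.isAlgebraic γ₀)
  obtain ⟨n, hn, hint⟩ := halg.exists_integral_multiple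
  set γ : L := n • γ₀ with hγ
  have hnL : ((n : ℚ)) ≠ 0 := by exact_mod_cast hn
  have hγe : γ = algebraMap ℚ L n * γ₀ := by
    rw [hγ, zsmul_eq_mul]
    simp
  -- all elements are polynomials in γ
  have hpol : ∀ y : L, ∃ P : ℚ[X], aeval γ P = y := by
    intro y
    have h1 : y ∈ IntermediateField.adjoin ℚ {γ₀} := by
      rw [hγ₀]
      trivial
    have h2 : y ∈ Algebra.adjoin ℚ {γ₀} := by
      rw [← IntermediateField.adjoin_simple_toSubalgebra_of_isAlgebraic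
        (Algebra.IsAlgebraic.isAlgebraic γ₀)]
      exact h1
    rw [Algebra.adjoin_singleton_eq_range_aeval] at h2
    obtain ⟨P, hP⟩ := h2
    refine ⟨P.comp (C ((n : ℚ)⁻¹) * X), ?_⟩
    rw [aeval_comp]
    have h3 : aeval γ (C ((n : ℚ)⁻¹) * X) = γ₀ := by
      rw [map_mul, aeval_C, aeval_X, hγe, ← mul_assoc, ← map_mul, inv_mul_cancel₀ hnL, map_one,
        one_mul]
    rw [h3]
    exact hP
  have hmin : minpoly ℚ γ = (minpoly ℤ γ).map (algebraMap ℤ ℚ) :=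
    minpoly.isIntegrallyClosed_eq_field_fractions' ℚ hint
  have hdv : ∀ P : ℚ[X], aeval γ P = 0 →
      ∃ Q : ℚ[X], P = (minpoly ℤ γ).map (Int.castRingHom ℚ) * Q := by
    intro P hP
    have := minpoly.dvd ℚ γ hP
    rw [hmin] at this
    exact this
  obtain ⟨P1, hP1⟩ := hpol θ
  obtain ⟨P2, hP2⟩ := hpol β
  obtain ⟨r0, r1, hr⟩ := hgen γ
  obtain ⟨Q1, hQ1⟩ := hdv ((f.map (Int.castRingHom ℚ)).comp P1) (by
    rw [aeval_comp, hP1, hθ])
  obtain ⟨Q2, hQ2⟩ := hdv (P2 ^ 2 - (w.map (Int.castRingHom ℚ)).comp P1) (by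
    rw [map_sub, map_pow, aeval_comp, hP1, hP2, hβ, sub_self])
  obtain ⟨Q3, hQ3⟩ := hdv (r0.comp P1 + r1.comp P1 * P2 - X) (by
    rw [map_sub, map_add, map_mul, aeval_comp, aeval_comp, hP1, hP2, aeval_X, ← hr, sub_self])
  exact ⟨minpoly ℤ γ, minpoly.irreducible hint, minpoly.natDegree_pos hint, P1, P2, Q1, Q2, Q3,
    r0, r1, hQ1, hQ2, hQ3⟩

/-- the extension `K (√w)` -/
theorem alg (f w : ℤ[X]) (hf : Irreducible f) (hd : 0 < f.natDegree)
    (hns : ∀ q : ℚ[X], ¬ f.map (Int.castRingHom ℚ) ∣ (q ^ 2 - w.map (Int.castRingHom ℚ))) :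
    ∃ g : ℤ[X], Irreducible g ∧ 0 < g.natDegree ∧ ∃ P1 P2 Q1 Q2 Q3 r0 r1 : ℚ[X],
      (f.map (Int.castRingHom ℚ)).comp P1 = g.map (Int.castRingHom ℚ) * Q1 ∧
      P2 ^ 2 - (w.map (Int.castRingHom ℚ)).comp P1 = g.map (Int.castRingHom ℚ) * Q2 ∧
      r0.comp P1 + r1.comp P1 * P2 - X = g.map (Int.castRingHom ℚ) * Q3 := by
  set F : ℚ[X] := f.map (Int.castRingHom ℚ) with hF
  set W : ℚ[X] := w.map (Int.castRingHom ℚ) with hW
  have hFi : Irreducible F :=
    ((hf.isPrimitive hd.ne').irreducible_iff_irreducible_map_fraction_map (K := ℚ)).1 hf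
  have : Fact (Irreducible F) := ⟨hFi⟩
  let K := AdjoinRoot F
  let x : K := AdjoinRoot.mk F W
  have hx : ∀ b : K, b ^ 2 ≠ x := by
    intro b hb
    obtain ⟨q, rfl⟩ := AdjoinRoot.mk_surjective b
    apply hns q
    have : AdjoinRoot.mk F (q ^ 2 - W) = 0 := by
      rw [map_sub, map_pow, hb, sub_self]
    exact AdjoinRoot.mk_eq_zero.1 this
  have hG : Irreducible (X ^ 2 - C x : K[X]) := X_pow_sub_C_irreducible_of_prime Nat.prime_two hx
  have : Fact (Irreducible (X ^ 2 - C x : K[X])) := ⟨hG⟩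
  let L := AdjoinRoot (X ^ 2 - C x : K[X])
  have i1 : IsScalarTower ℚ K L := inferInstance
  have i2 : FiniteDimensional ℚ K := (AdjoinRoot.powerBasis hFi.ne_zero).finite
  have i3 : FiniteDimensional K L := (AdjoinRoot.powerBasis hG.ne_zero).finite
  have i4 : FiniteDimensional ℚ L := FiniteDimensional.trans ℚ K L
  have hmk : ∀ q : ℚ[X], aeval (AdjoinRoot.root F) q = AdjoinRoot.mk F q :=
    fun q => AdjoinRoot.aeval_eq q
  have hmkL : ∀ q : ℚ[X], aeval (algebraMap K L (AdjoinRoot.root F)) q =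
      algebraMap K L (AdjoinRoot.mk F q) := by
    intro q
    rw [aeval_algebraMap_apply, hmk]
  refine algL L f w (algebraMap K L (AdjoinRoot.root F)) (AdjoinRoot.root (X ^ 2 - C x : K[X]))
    ?_ ?_ ?_
  · rw [← hF, hmkL, AdjoinRoot.mk_self, map_zero]
  · rw [← hW, hmkL]
    have h1 : AdjoinRoot.mk (X ^ 2 - C x : K[X]) (X ^ 2 - C x : K[X]) = 0 := AdjoinRoot.mk_self
    rw [map_sub, map_pow, AdjoinRoot.mk_X, AdjoinRoot.mk_C, sub_eq_zero] at h1
    exact h1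
  · intro y
    obtain ⟨P, rfl⟩ := AdjoinRoot.mk_surjective y
    have hmon : (X ^ 2 - C x : K[X]).Monic := monic_X_pow_sub_C x two_ne_zero
    have hdeg : (P %ₘ (X ^ 2 - C x)).natDegree ≤ 1 := by
      have h1 := natDegree_modByMonic_lt P hmon (by
        intro h
        have h2 := congrArg natDegree h
        rw [natDegree_X_pow_sub_C, natDegree_one] at h2
        omega)
      rw [natDegree_X_pow_sub_C] at h1
      omega
    obtain ⟨b, a, hab⟩ := exists_eq_X_add_C_of_natDegree_le_one hdeg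
    have h3 : AdjoinRoot.mk (X ^ 2 - C x : K[X]) P =
        AdjoinRoot.mk (X ^ 2 - C x : K[X]) (C b * X + C a) := by
      rw [← hab]
      conv_lhs => rw [← modByMonic_add_div P (X ^ 2 - C x : K[X])]
      rw [map_add, map_mul, AdjoinRoot.mk_self, zero_mul, add_zero]
    obtain ⟨q0, hq0⟩ := AdjoinRoot.mk_surjective a
    obtain ⟨q1, hq1⟩ := AdjoinRoot.mk_surjective b
    refine ⟨q0, q1, ?_⟩
    rw [hmkL, hmkL, hq0, hq1, h3, map_add, map_mul, AdjoinRoot.mk_X, AdjoinRoot.mk_C,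
      AdjoinRoot.mk_C, add_comm]
    rfl

/-- integrality at `p` -/
lemma lift_p (p : ℕ) [Fact p.Prime] (P : ℚ[X]) (h : ∀ i, ¬ p ∣ (P.coeff i).den) :
    ∃ P' : ℤ_[p][X], P'.map (algebraMap ℤ_[p] ℚ_[p]) = P.map (algebraMap ℚ ℚ_[p]) := by
  have h1 : P.map (algebraMap ℚ ℚ_[p]) ∈ lifts (algebraMap ℤ_[p] ℚ_[p]) := by
    rw [lifts_iff_coeff_lifts]
    intro n
    rw [coeff_map]
    exact ⟨⟨((P.coeff n : ℚ) : ℚ_[p]), Padic.norm_rat_le_one (h n)⟩, rfl⟩
  exact (mem_lifts _).1 h1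

/-- the primes dividing a denominator of a coefficient -/
lemma good_p (P : ℚ[X]) : ∃ z0 : ℕ, ∀ p : ℕ, z0 ≤ p → ∀ i, ¬ p ∣ (P.coeff i).den := by
  refine ⟨∑ i ∈ P.support, (P.coeff i).den + 2, fun p hp i hdv => ?_⟩
  have h1 := Nat.le_of_dvd (Rat.den_pos _) hdv
  by_cases hi : i ∈ P.support
  · have h2 : (P.coeff i).den ≤ ∑ i ∈ P.support, (P.coeff i).den :=
      Finset.single_le_sum (f := fun i => (P.coeff i).den) (fun _ _ => Nat.zero_le _) hi
    omega
  · rw [notMem_support_iff.1 hi] at h1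
    simp at h1
    omega

/-- the identities modulo `p` -/
theorem redp (p : ℕ) [Fact p.Prime] (f w g : ℤ[X]) (P1 P2 Q1 Q2 Q3 r0 r1 : ℚ[X])
    (h1 : (f.map (Int.castRingHom ℚ)).comp P1 = g.map (Int.castRingHom ℚ) * Q1)
    (h2 : P2 ^ 2 - (w.map (Int.castRingHom ℚ)).comp P1 = g.map (Int.castRingHom ℚ) * Q2)
    (h3 : r0.comp P1 + r1.comp P1 * P2 - X = g.map (Int.castRingHom ℚ) * Q3)
    (hP1 : ∀ i, ¬ p ∣ (P1.coeff i).den) (hP2 : ∀ i, ¬ p ∣ (P2.coeff i).den)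
    (hQ1 : ∀ i, ¬ p ∣ (Q1.coeff i).den) (hQ2 : ∀ i, ¬ p ∣ (Q2.coeff i).den)
    (hQ3 : ∀ i, ¬ p ∣ (Q3.coeff i).den) (hr0 : ∀ i, ¬ p ∣ (r0.coeff i).den)
    (hr1 : ∀ i, ¬ p ∣ (r1.coeff i).den) :
    ∃ (A B r s : (ZMod p)[X]), ∀ c : ZMod p, (g.map (Int.castRingHom (ZMod p))).eval c = 0 →
      (f.map (Int.castRingHom (ZMod p))).eval (A.eval c) = 0 ∧
      (B.eval c) ^ 2 = (w.map (Int.castRingHom (ZMod p))).eval (A.eval c) ∧
      c = r.eval (A.eval c) + s.eval (A.eval c) * B.eval c := by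
  obtain ⟨P1', hP1'⟩ := lift_p p P1 hP1
  obtain ⟨P2', hP2'⟩ := lift_p p P2 hP2
  obtain ⟨Q1', hQ1'⟩ := lift_p p Q1 hQ1
  obtain ⟨Q2', hQ2'⟩ := lift_p p Q2 hQ2
  obtain ⟨Q3', hQ3'⟩ := lift_p p Q3 hQ3
  obtain ⟨r0', hr0'⟩ := lift_p p r0 hr0
  obtain ⟨r1', hr1'⟩ := lift_p p r1 hr1
  have hinj : Function.Injective (Polynomial.map (algebraMap ℤ_[p] ℚ_[p])) :=
    map_injective _ (IsFractionRing.injective ℤ_[p] ℚ_[p])
  have hZ : ∀ u : ℤ[X], (u.map (Int.castRingHom ℤ_[p])).map (algebraMap ℤ_[p] ℚ_[p]) =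
      (u.map (Int.castRingHom ℚ)).map (algebraMap ℚ ℚ_[p]) := by
    intro u
    rw [map_map, map_map]
    congr 1
  have k1 : (f.map (Int.castRingHom ℤ_[p])).comp P1' = g.map (Int.castRingHom ℤ_[p]) * Q1' := by
    apply hinj
    rw [map_comp, Polynomial.map_mul, hZ, hZ, hP1', hQ1', ← map_comp, h1, Polynomial.map_mul]
  have k2 : P2' ^ 2 - (w.map (Int.castRingHom ℤ_[p])).comp P1' =
      g.map (Int.castRingHom ℤ_[p]) * Q2' := by
    apply hinj
    rw [Polynomial.map_sub, Polynomial.map_pow, map_comp, Polynomial.map_mul, hZ, hZ, hP1', hP2',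
      hQ2', ← map_comp, ← Polynomial.map_pow, ← Polynomial.map_sub, h2, Polynomial.map_mul]
  have k3 : r0'.comp P1' + r1'.comp P1' * P2' - X = g.map (Int.castRingHom ℤ_[p]) * Q3' := by
    apply hinj
    rw [Polynomial.map_sub, Polynomial.map_add, Polynomial.map_mul, map_comp, map_comp,
      Polynomial.map_mul, hZ, hP1', hP2', hQ3', hr0', hr1', Polynomial.map_X, ← map_comp,
      ← map_comp, ← Polynomial.map_mul, ← Polynomial.map_mul, ← h3, Polynomial.map_sub,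
      Polynomial.map_add, Polynomial.map_X]
  let φ : ℤ_[p] →+* ZMod p := PadicInt.toZMod
  have hφ : ∀ u : ℤ[X], (u.map (Int.castRingHom ℤ_[p])).map φ =
      u.map (Int.castRingHom (ZMod p)) := by
    intro u
    rw [map_map]
    congr 1
    exact RingHom.ext_int _ _
  refine ⟨P1'.map φ, P2'.map φ, r0'.map φ, r1'.map φ, fun c hc => ?_⟩
  have m1 := congrArg (fun u => (u.map φ).eval c) k1
  have m2 := congrArg (fun u => (u.map φ).eval c) k2
  have m3 := congrArg (fun u => (u.map φ).eval c) k3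
  simp only [map_comp, Polynomial.map_mul, Polynomial.map_sub, Polynomial.map_add,
    Polynomial.map_pow, hφ, eval_comp, eval_mul, eval_sub, eval_add, eval_pow, hc, zero_mul,
    Polynomial.map_X, eval_X] at m1 m2 m3
  exact ⟨m1, sub_eq_zero.1 m2, (sub_eq_zero.1 m3).symm⟩

/-- the number of the roots modulo `p` -/
theorem cntp (p : ℕ) [Fact p.Prime] (hp2 : p ≠ 2) (f w g : ℤ[X])
    (h : ∃ (A B r s : (ZMod p)[X]), ∀ c : ZMod p,
      (g.map (Int.castRingHom (ZMod p))).eval c = 0 →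
      (f.map (Int.castRingHom (ZMod p))).eval (A.eval c) = 0 ∧
      (B.eval c) ^ 2 = (w.map (Int.castRingHom (ZMod p))).eval (A.eval c) ∧
      c = r.eval (A.eval c) + s.eval (A.eval c) * B.eval c) :
    (((Finset.univ.filter (fun c : ZMod p =>
      (g.map (Int.castRingHom (ZMod p))).eval c = 0)).card : ℕ) : ℤ) ≤
    ∑ a ∈ Finset.univ.filter (fun c : ZMod p =>
      (f.map (Int.castRingHom (ZMod p))).eval c = 0),
      (quadraticChar (ZMod p) ((w.map (Int.castRingHom (ZMod p))).eval a) + 1) := by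
  classical
  obtain ⟨A, B, r, s, h⟩ := h
  have h1 : (Finset.univ.filter (fun c : ZMod p =>
      (g.map (Int.castRingHom (ZMod p))).eval c = 0)).card ≤
      ((Finset.univ.filter (fun c : ZMod p =>
        (f.map (Int.castRingHom (ZMod p))).eval c = 0)).sigma
        (fun a => Finset.univ.filter (fun b : ZMod p =>
          b ^ 2 = (w.map (Int.castRingHom (ZMod p))).eval a))).card := by
    refine Finset.card_le_card_of_injOn (fun c => ⟨A.eval c, B.eval c⟩) ?_ ?_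
    · intro c hc
      simp only [Finset.coe_filter, Finset.mem_univ, true_and, Set.mem_ofPred_eq] at hc
      obtain ⟨h1, h2, -⟩ := h c hc
      simp only [Finset.coe_sigma, Finset.coe_filter, Finset.mem_univ, true_and,
        Set.mem_sigma_iff, Set.mem_ofPred_eq]
      exact ⟨h1, h2⟩
    · intro c hc d hd hcd
      simp only [Finset.coe_filter, Finset.mem_univ, true_and, Set.mem_ofPred_eq] at hc hd
      obtain ⟨-, -, h3⟩ := h c hc
      obtain ⟨-, -, h4⟩ := h d hd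
      simp only [Sigma.mk.injEq, heq_eq_eq] at hcd
      rw [h3, h4, hcd.1, hcd.2]
  have h2 : ringChar (ZMod p) ≠ 2 := by
    rw [ZMod.ringChar_zmod_n]
    exact hp2
  rw [Finset.card_sigma] at h1
  have h3 : ∀ a : ZMod p, (((Finset.univ.filter (fun b : ZMod p =>
      b ^ 2 = (w.map (Int.castRingHom (ZMod p))).eval a)).card : ℕ) : ℤ) =
      quadraticChar (ZMod p) ((w.map (Int.castRingHom (ZMod p))).eval a) + 1 := by
    intro a
    rw [← quadraticChar_card_sqrts h2]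
    congr 2
    ext b
    simp
  refine (Nat.cast_le.2 h1).trans (le_of_eq ?_)
  push_cast
  exact Finset.sum_congr rfl fun a _ => h3 a

end Pool.Agent.TH626.TKL
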