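import Mathlib
import Pool.Agent.TH841.LS.TkxA
import Pool.Agent.TH626.TKL.Ext

/-!
# NO-TKL, second part: the comparison of the numbers of roots, and the inequality of Turan and
Kubilius for the lower deviations (job 4713 of helper841, written by helper626)
-/

set_option autoImplicit false

namespace Pool.Agent.TH626.TKL

open Finset Polynomial Pool.Agent.W262.RK Pool.Agent.TH841.PM.BADf Pool.Agent.TH841.LS.TKXf

open Pool.Agent.H474R2.PG (rho)

lemma sum_Rt (f : ℤ[X]) (p : ℕ) [Fact p.Prime] (F : ZMod p → ℝ) :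
    ∑ a ∈ Rt f p, F (a : ZMod p) = ∑ c ∈ univ.filter (fun c : ZMod p =>
      (f.map (Int.castRingHom (ZMod p))).eval c = 0), F c := by
  classical
  have key : ∀ a : ℕ, (f.map (Int.castRingHom (ZMod p))).eval (a : ZMod p) = 0 ↔
      (p : ℤ) ∣ f.eval (a : ℤ) := by
    intro a
    rw [eval_natCast_map, eq_intCast, ZMod.intCast_zmod_eq_zero_iff_dvd]
  refine sum_bij' (fun a _ => (a : ZMod p)) (fun c _ => c.val) ?_ ?_ ?_ ?_ ?_
  · intro a ha
    unfold Rt at ha
    rw [mem_filter] at ha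
    rw [mem_filter]
    exact ⟨mem_univ _, (key a).2 ha.2⟩
  · intro c hc
    rw [mem_filter] at hc
    unfold Rt
    rw [mem_filter, mem_range]
    refine ⟨ZMod.val_lt c, (key _).1 ?_⟩
    rw [ZMod.natCast_zmod_val]
    exact hc.2
  · intro a ha
    unfold Rt at ha
    rw [mem_filter, mem_range] at ha
    exact ZMod.val_natCast_of_lt ha.1
  · intro c hc
    exact ZMod.natCast_zmod_val c
  · intro a ha
    rfl

lemma rho_card (f : ℤ[X]) (p : ℕ) [Fact p.Prime] : (rho f p : ℝ) =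
    ((univ.filter (fun c : ZMod p =>
      (f.map (Int.castRingHom (ZMod p))).eval c = 0)).card : ℝ) := by
  have h := sum_Rt f p (fun _ => 1)
  rw [sum_const, sum_const, nsmul_eq_mul, nsmul_eq_mul, mul_one, mul_one, card_Rt] at h
  exact h

/-- **the number of the roots in the quadratic extension** -/
theorem ext (f w : ℤ[X]) (hf : Irreducible f) (hd : 0 < f.natDegree)
    (hns : ∀ q : ℚ[X], ¬ f.map (Int.castRingHom ℚ) ∣ (q ^ 2 - w.map (Int.castRingHom ℚ))) :
    ∃ g : ℤ[X], Irreducible g ∧ 0 < g.natDegree ∧ ∃ z0 : ℕ, ∀ p : ℕ, p.Prime → z0 ≤ p →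
      (rho g p : ℝ) ≤ rho f p + rc f w p := by
  obtain ⟨g, hg, hgd, P1, P2, Q1, Q2, Q3, r0, r1, h1, h2, h3⟩ := alg f w hf hd hns
  obtain ⟨z1, hz1⟩ := good_p P1
  obtain ⟨z2, hz2⟩ := good_p P2
  obtain ⟨z3, hz3⟩ := good_p Q1
  obtain ⟨z4, hz4⟩ := good_p Q2
  obtain ⟨z5, hz5⟩ := good_p Q3
  obtain ⟨z6, hz6⟩ := good_p r0
  obtain ⟨z7, hz7⟩ := good_p r1
  refine ⟨g, hg, hgd, z1 + z2 + z3 + z4 + z5 + z6 + z7 + 3, fun p hp hzp => ?_⟩
  have : Fact p.Prime := ⟨hp⟩
  have h4 := cntp p (by omega) f w g (redp p f w g P1 P2 Q1 Q2 Q3 r0 r1 h1 h2 h3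
    (hz1 p (by omega)) (hz2 p (by omega)) (hz3 p (by omega)) (hz4 p (by omega))
    (hz5 p (by omega)) (hz6 p (by omega)) (hz7 p (by omega)))
  have h5 : ((((univ.filter (fun c : ZMod p =>
      (g.map (Int.castRingHom (ZMod p))).eval c = 0)).card : ℕ) : ℤ) : ℝ) ≤
    ((∑ a ∈ univ.filter (fun c : ZMod p => (f.map (Int.castRingHom (ZMod p))).eval c = 0),
      (quadraticChar (ZMod p) ((w.map (Int.castRingHom (ZMod p))).eval a) + 1) : ℤ) : ℝ) := by
    exact_mod_cast h4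
  rw [rho_card g p]
  push_cast at h5
  refine h5.trans (le_of_eq ?_)
  rw [← sum_Rt f p (fun a =>
    ((quadraticChar (ZMod p) ((w.map (Int.castRingHom (ZMod p))).eval a) : ℤ) : ℝ) + 1),
    sum_add_distrib, sum_const, nsmul_eq_mul, mul_one, card_Rt, add_comm]
  congr 1
  unfold rc
  refine sum_congr rfl fun a _ => ?_
  unfold Jr
  rw [← jacobiSym.legendreSym.to_jacobiSym, legendreSym, eval_natCast_map, eq_intCast]

/-- the mean is bounded from below -/
lemma MU_ge (f g w : ℤ[X]) (z y : ℕ)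
    (h : ∀ p : ℕ, p.Prime → z < p → (rho g p : ℝ) ≤ rho f p + rc f w p) :
    SS g z y - SS f z y ≤ MU f w z y := by
  unfold SS MU
  rw [← sum_sub_distrib]
  refine sum_le_sum fun p hp => ?_
  have hp' := mem_PS.1 hp
  have h1 := h p hp'.2 hp'.1.1
  rw [← sub_div]
  exact div_le_div_of_nonneg_right (by linarith) (Nat.cast_nonneg _)

/-- the sum of the symbols over all the prime factors, from below -/
lemma XX_le_sum (f w : ℤ[X]) (z y k : ℕ) (t : ℤ) (ht : f.eval t ≠ 0)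
    (hk : (f.eval t).natAbs < (y + 1) ^ (k + 1)) :
    XX f w z y t - (z + k : ℕ) ≤ ∑ p ∈ (f.eval t).natAbs.primeFactors, Jr (w.eval t) p := by
  classical
  set A := (PS z y).filter (fun p : ℕ => (p : ℤ) ∣ f.eval t) with hA
  have hsub : A ⊆ (f.eval t).natAbs.primeFactors := by
    intro p hp
    rw [hA, mem_filter, mem_PS] at hp
    rw [Nat.mem_primeFactors]
    exact ⟨hp.1.2, Int.natCast_dvd.1 hp.2, Int.natAbs_ne_zero.2 ht⟩
  have h1 : XX f w z y t = ∑ p ∈ A, Jr (w.eval t) p := by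
    unfold XX hh'
    rw [hA, sum_filter]
  have h2 := le_om f z y k t ht hk
  have h3 : om f z y t = A.card := rfl
  rw [h3] at h2
  rw [← sum_sdiff hsub, h1]
  have h4 : -((z + k : ℕ) : ℝ) ≤ ∑ p ∈ (f.eval t).natAbs.primeFactors \ A, Jr (w.eval t) p := by
    have h5 : ∑ p ∈ (f.eval t).natAbs.primeFactors \ A, (-1 : ℝ) ≤
        ∑ p ∈ (f.eval t).natAbs.primeFactors \ A, Jr (w.eval t) p :=
      sum_le_sum fun p _ => (abs_le.1 (Jr_abs _ _)).1
    refine le_trans ?_ h5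
    rw [sum_const, nsmul_eq_mul, mul_neg_one, neg_le_neg_iff]
    have h6 : ((f.eval t).natAbs.primeFactors \ A).card ≤ z + k := by
      rw [card_sdiff_of_subset hsub]
      omega
    exact_mod_cast h6
  linarith

/-- **the exceptional arguments are rare**, with the sums over the primes as inputs -/
theorem coreL (f w : ℤ[X]) (z c B : ℕ) (C : ℝ) (hC : 0 ≤ C) (hz : 3 ≤ z)
    (hc : ∀ p : ℕ, p.Prime → z < p → rho f p ≤ c)
    (hS : ∀ y, z < y → SS f z y ≤ Real.log (Real.log y) + C)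
    (hU : ∀ y, z < y → -C ≤ MU f w z y)
    (hK : ∃ K : ℕ, ∀ (x : ℤ) (m : ℕ), 1 ≤ m → x.natAbs ≤ m →
      (f.eval x).natAbs ≤ K * m ^ f.natDegree) (δ ε : ℝ) (hδ : 0 < δ) (hε : 0 < ε) :
    ∃ M0 : ℕ, ∀ (N : ℤ) (M : ℕ), M0 ≤ M → |N| ≤ (M : ℤ) ^ B →
      ∀ E : Finset ℤ, E ⊆ Ioc N (N + M) → (∀ t ∈ E, f.eval t ≠ 0) →
      (∀ t ∈ E, ∑ p ∈ (f.eval t).natAbs.primeFactors, Jr (w.eval t) p <
        -(δ * Real.log (Real.log M))) →
      (E.card : ℝ) ≤ ε * M := by
  obtain ⟨K, hK⟩ := hK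
  set b : ℕ := (B + 2) * f.natDegree + 1 with hb
  set D : ℝ := C + (z + 2 * b : ℕ) with hD
  have hD0 : 0 ≤ D := by positivity
  -- the conditions on the size of `M`
  have e1 := tendsto_LL.eventually_ge_atTop (2 * D / δ)
  have e2 := tendsto_LL.eventually_ge_atTop
    (4 * ((2 * c + 1) * (1 + C) + (c ^ 2 + c)) / (ε * δ ^ 2))
  have e3 := tendsto_LL.eventually_ge_atTop 1
  obtain ⟨M1, hM1⟩ := Filter.eventually_atTop.1 (e1.and (e2.and e3))
  refine ⟨M1 + (z + 2) * (z + 2) + K + 16, fun N M hM hN E hE1 hE2 hE3 => ?_⟩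
  obtain ⟨h1, h2, h3⟩ := hM1 M (by omega)
  set L : ℝ := Real.log (Real.log M) with hL
  set y : ℕ := Nat.sqrt M with hy
  have hyM : y * y ≤ M := Nat.sqrt_le M
  have hyM' : M < (y + 1) * (y + 1) := Nat.lt_succ_sqrt M
  have hzy : z + 2 ≤ y := by
    rw [hy, Nat.le_sqrt]
    have : (z + 2) * (z + 2) ≤ M := by
      have := hM
      omega
    exact this
  have hy3 : 3 ≤ y := by omega
  have hlogy : Real.log y ≤ Real.log M := by
    apply Real.log_le_log
    · exact_mod_cast (by omega : 0 < y)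
    · have : y ≤ y * y := Nat.le_mul_self y
      exact_mod_cast this.trans hyM
  have hlogy1 : 1 < Real.log y := by
    rw [Real.lt_log_iff_exp_lt (by exact_mod_cast (by omega : 0 < y))]
    have h4 := Real.exp_one_lt_d9
    have h5 : (3 : ℝ) ≤ y := by exact_mod_cast hy3
    linarith
  have hLy1 : Real.log (Real.log y) ≤ L := Real.log_le_log (by linarith) hlogy
  have hSL' : SS f z y ≤ L + C := by linarith [hS y (by omega)]
  have hUC := hU y (by omega)
  -- the size of the values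
  have hsize : ∀ t ∈ Ioc N (N + M), (f.eval t).natAbs < (y + 1) ^ (2 * b + 1) := by
    intro t ht
    rw [mem_Ioc] at ht
    have hM0 : 1 ≤ M := by omega
    have e5 : M ^ B ≤ M ^ (B + 1) := Nat.pow_le_pow_right hM0 (by omega)
    have e6 : M ≤ M ^ (B + 1) := Nat.le_self_pow (by omega) M
    have e7 : N.natAbs ≤ M ^ B := by
      have : ((N.natAbs : ℕ) : ℤ) ≤ ((M ^ B : ℕ) : ℤ) := by
        push_cast
        exact hN
      exact_mod_cast this
    have e8 : t.natAbs ≤ M ^ (B + 2) := by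
      calc t.natAbs ≤ N.natAbs + M := by omega
        _ ≤ M ^ (B + 1) + M ^ (B + 1) := Nat.add_le_add (e7.trans e5) e6
        _ = 2 * M ^ (B + 1) := by ring
        _ ≤ M * M ^ (B + 1) := Nat.mul_le_mul_right _ (by omega)
        _ = M ^ (B + 2) := by ring
    have e9 : (f.eval t).natAbs ≤ M ^ b := by
      calc (f.eval t).natAbs ≤ K * (M ^ (B + 2)) ^ f.natDegree :=
            hK t _ (Nat.one_le_pow _ _ hM0) e8
        _ ≤ M * (M ^ (B + 2)) ^ f.natDegree := Nat.mul_le_mul_right _ (by omega)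
        _ = M ^ b := by rw [hb, ← pow_mul]; ring
    calc (f.eval t).natAbs ≤ M ^ b := e9
      _ ≤ ((y + 1) * (y + 1)) ^ b := Nat.pow_le_pow_left hyM'.le b
      _ = (y + 1) ^ (2 * b) := by rw [← pow_two, ← pow_mul]
      _ < (y + 1) ^ (2 * b + 1) := Nat.pow_lt_pow_right (by omega) (by omega)
  -- the exceptions deviate from the mean
  have hDL : D ≤ δ * L / 2 := by
    rw [div_le_iff₀ hδ] at h1
    linarith
  have hdev : ∀ t ∈ E, (δ * L / 2) ^ 2 ≤ (XX f w z y t - MU f w z y) ^ 2 := by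
    intro t ht
    have h5 := XX_le_sum f w z y (2 * b) t (hE2 t ht) (hsize t (hE1 ht))
    have h6 := hE3 t ht
    have h7 : δ * L / 2 ≤ MU f w z y - XX f w z y t := by
      rw [hD] at hDL
      linarith
    have hL0 : 0 ≤ L := by linarith
    have h8 : (XX f w z y t - MU f w z y) ^ 2 = (MU f w z y - XX f w z y t) ^ 2 := by ring
    rw [h8]
    exact pow_le_pow_left₀ (by positivity) h7 2
  have hT := turanX f w z y c (fun p hp => hc p (mem_PS.1 hp).2 (mem_PS.1 hp).1.1) N M hyM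
  have hcard : (E.card : ℝ) * (δ * L / 2) ^ 2 ≤
      M * ((2 * c + 1) * SS f z y + (c ^ 2 + c)) := by
    refine le_trans ?_ hT
    rw [← nsmul_eq_mul, ← sum_const]
    refine (sum_le_sum fun t ht => hdev t ht).trans ?_
    exact sum_le_sum_of_subset_of_nonneg hE1 fun _ _ _ => sq_nonneg _
  have hc0 : (0 : ℝ) ≤ c := Nat.cast_nonneg _
  have hL0 : 0 < L := by linarith
  set A : ℝ := (2 * c + 1) * (1 + C) + (c ^ 2 + c) with hA
  have hbd : (2 * (c : ℝ) + 1) * SS f z y + (c ^ 2 + c) ≤ A * L := by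
    have h4 : (2 * (c : ℝ) + 1) * SS f z y ≤ (2 * c + 1) * (L + C) :=
      mul_le_mul_of_nonneg_left hSL' (by positivity)
    have h5 : (2 * (c : ℝ) + 1) * (L + C) ≤ (2 * c + 1) * ((1 + C) * L) := by
      refine mul_le_mul_of_nonneg_left ?_ (by positivity)
      nlinarith
    have h6 : (c : ℝ) ^ 2 + c ≤ (c ^ 2 + c) * L := le_mul_of_one_le_right (by positivity) h3
    rw [hA]
    linarith
  have hAL : 4 * A ≤ L * (ε * δ ^ 2) := by
    rwa [div_le_iff₀ (by positivity)] at h2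
  have hM0 : (0 : ℝ) ≤ M := Nat.cast_nonneg _
  have h7 : (E.card : ℝ) * (δ * L / 2) ^ 2 ≤ ε * M * (δ * L / 2) ^ 2 := by
    refine hcard.trans ?_
    calc (M : ℝ) * ((2 * c + 1) * SS f z y + (c ^ 2 + c)) ≤ M * (A * L) :=
          mul_le_mul_of_nonneg_left hbd hM0
      _ = M * (4 * A) * L / 4 := by ring
      _ ≤ M * (L * (ε * δ ^ 2)) * L / 4 := by
          have := mul_le_mul_of_nonneg_right (mul_le_mul_of_nonneg_left hAL hM0) hL0.le
          linarith
      _ = _ := by ring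
  exact le_of_mul_le_mul_right h7 (by positivity)

end Pool.Agent.TH626.TKL
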